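import Pool.Agent.H741R3.Skew7

/-!
Every stable polynomial in two variables satisfying the degree parity condition has a determinantal
representation `c det (A + i (x B₁ + y B₂))` with `A` real skew-symmetric and `B₁`, `B₂` real
positive definite.
-/

open Matrix Filter Topology
open scoped ComplexOrder
open Pool.Agent.H741R3.Skew

namespace Pool.Agent.Results.MP_ca7272_al.SkewDetRep

noncomputable section

/-- `p` has no zero `(x, y)` with `Im x > 0` and `Im y > 0`. -/
def Stable (p : MvPolynomial (Fin 2) ℂ) : Prop :=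
  ∀ x y : ℂ, 0 < x.im → 0 < y.im → MvPolynomial.eval ![x, y] p ≠ 0

/-- Admissible polynomials of total degree `n`: stable, all monomials have degree congruent to `n`
modulo `2`, and the homogeneous part `p_n` of degree `n` has `p_n(1,0) ≠ 0` and
`p_n(0,1) ≠ 0`. -/
def Admissible (p : MvPolynomial (Fin 2) ℂ) (n : ℕ) : Prop :=
  p.totalDegree = n ∧ Stable p ∧ (∀ d ∈ p.support, (d 0 + d 1) % 2 = n % 2) ∧
    MvPolynomial.eval ![1, 0] (MvPolynomial.homogeneousComponent n p) ≠ 0 ∧
    MvPolynomial.eval ![0, 1] (MvPolynomial.homogeneousComponent n p) ≠ 0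

/-- The polynomial `det (A + i (x B₁ + y B₂))`. -/
def detPoly {n : ℕ} (A B₁ B₂ : Matrix (Fin n) (Fin n) ℝ) : MvPolynomial (Fin 2) ℂ :=
  Matrix.det (Matrix.of fun i j : Fin n =>
    MvPolynomial.C (A i j : ℂ) + MvPolynomial.C Complex.I *
      (MvPolynomial.X 0 * MvPolynomial.C (B₁ i j : ℂ)
        + MvPolynomial.X 1 * MvPolynomial.C (B₂ i j : ℂ)))

lemma eval_hom (p : MvPolynomial (Fin 2) ℂ) (n : ℕ) (x y : ℂ) :
    MvPolynomial.eval ![x, y] (MvPolynomial.homogeneousComponent n p)
      = ∑ d ∈ p.support with d.degree = n, p.coeff d * (x ^ d 0 * y ^ d 1) := by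
  rw [MvPolynomial.homogeneousComponent_apply, map_sum]
  apply Finset.sum_congr rfl
  intro d _
  rw [MvPolynomial.eval_monomial, Finsupp.prod_fintype _ _ (fun _ => by simp),
    Fin.prod_univ_two]
  simp

lemma degree_two (d : Fin 2 →₀ ℕ) : d.degree = d 0 + d 1 := by
  rw [Finsupp.degree_eq_sum, Fin.sum_univ_two]

lemma coeff_x_ne {p : MvPolynomial (Fin 2) ℂ} {n : ℕ}
    (h : MvPolynomial.eval ![1, 0] (MvPolynomial.homogeneousComponent n p) ≠ 0) :
    p.coeff (Finsupp.single 0 n) ≠ 0 := by
  intro h0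
  apply h
  rw [eval_hom]
  apply Finset.sum_eq_zero
  intro d hd
  rw [Finset.mem_filter, degree_two] at hd
  by_cases h1 : d 1 = 0
  · have : d = Finsupp.single 0 n := eq_single_zero (by omega) h1
    rw [this, h0, zero_mul]
  · rw [zero_pow h1]; ring

lemma coeff_y_ne {p : MvPolynomial (Fin 2) ℂ} {n : ℕ}
    (h : MvPolynomial.eval ![0, 1] (MvPolynomial.homogeneousComponent n p) ≠ 0) :
    p.coeff (Finsupp.single 1 n) ≠ 0 := by
  intro h0
  apply h
  rw [eval_hom]
  apply Finset.sum_eq_zero
  intro d hd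
  rw [Finset.mem_filter, degree_two] at hd
  by_cases h1 : d 0 = 0
  · have : d = Finsupp.single 1 n := eq_single_one h1 (by omega)
    rw [this, h0, zero_mul]
  · rw [zero_pow h1]; ring

lemma Admissible.adm' {p : MvPolynomial (Fin 2) ℂ} {n : ℕ} (h : Admissible p n) : Adm' p n :=
  ⟨h.1.le, h.2.1, h.2.2.1, coeff_x_ne h.2.2.2.1, coeff_y_ne h.2.2.2.2⟩

open Polynomial in
/-- The real polynomial in `x` over `ℝ[s]`. -/
def realPoly (p : MvPolynomial (Fin 2) ℂ) (n : ℕ) : ℝ[X][X] :=
  ∑ d ∈ p.support, C (C ((-1) ^ ((n - (d 0 + d 1)) / 2) *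
    (p.coeff d / p.coeff (Finsupp.single 0 n)).re) * X ^ d 1) * X ^ d 0

lemma eval_realPoly {p : MvPolynomial (Fin 2) ℂ} {n : ℕ} (h : Adm' p n) (x s : ℂ) :
    MvPolynomial.eval ![Complex.I * x, Complex.I * s] p
      = p.coeff (Finsupp.single 0 n) * Complex.I ^ n
        * ((realPoly p n).map (evz s)).eval x := by
  set a := p.coeff (Finsupp.single 0 n) with ha
  have ha0 : a ≠ 0 := h.cx
  rw [eval_two, realPoly, Polynomial.map_sum, Polynomial.eval_finsetSum, Finset.mul_sum]
  apply Finset.sum_congr rfl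
  intro d hd
  have h1 := deg_le h.deg hd
  have h2 := h.par d hd
  obtain ⟨k, hk⟩ : ∃ k, n = (d 0 + d 1) + 2 * k := ⟨(n - (d 0 + d 1)) / 2, by omega⟩
  have hk2 : (n - (d 0 + d 1)) / 2 = k := by omega
  have hI : Complex.I ^ n = Complex.I ^ (d 0) * Complex.I ^ (d 1) * (-1) ^ k := by
    rw [hk, pow_add, pow_add, pow_mul, Complex.I_sq]
  have hcoef : (p.coeff d : ℂ) = a * ((p.coeff d / a).re : ℂ) := by
    have := h.real_coeff d
    rw [← ha] at this
    rw [this]; field_simp
  rw [← ha, hk2]
  simp only [Polynomial.map_mul, Polynomial.map_pow, Polynomial.map_X, Polynomial.map_C,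
    Polynomial.eval_mul, Polynomial.eval_C, Polynomial.eval_pow, Polynomial.eval_X]
  rw [map_mul, map_pow, evz_C, evz_X, hI]
  push_cast
  have hkk : ((-1 : ℂ) ^ k) * (-1) ^ k = 1 := by rw [← mul_pow]; simp
  rw [mul_pow, mul_pow]
  calc MvPolynomial.coeff d p * (Complex.I ^ d 0 * x ^ d 0 * (Complex.I ^ d 1 * s ^ d 1))
      = (a * ((p.coeff d / a).re : ℂ)) * (Complex.I ^ d 0 * x ^ d 0 * (Complex.I ^ d 1 * s ^ d 1))
        * ((-1 : ℂ) ^ k * (-1) ^ k) := by rw [hkk, mul_one, ← hcoef]
    _ = _ := by ring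

open Polynomial in
lemma adm_realPoly {p : MvPolynomial (Fin 2) ℂ} {n : ℕ} (h : Adm' p n) :
    ∃ K : ℝ, 0 ≤ K ∧ Adm K (realPoly p n) ∧ (realPoly p n).natDegree = n := by
  obtain ⟨K, hK, hgrow⟩ := h.growth
  have hdeg : (realPoly p n).natDegree ≤ n := by
    apply natDegree_sum_le_of_forall_le
    intro d hd
    refine (natDegree_C_mul_X_pow_le _ _).trans ?_
    have := deg_le h.deg hd
    omega
  have hcoef : (realPoly p n).coeff n = 1 := by
    rw [realPoly, finsetSum_coeff]
    simp only [coeff_C_mul_X_pow]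
    rw [Finset.sum_eq_single (Finsupp.single 0 n)]
    · have h1 : (Finsupp.single (0 : Fin 2) n) 0 = n := by simp
      have h2 : (Finsupp.single (0 : Fin 2) n) 1 = 0 := by simp
      rw [if_pos h1.symm, h1, h2, div_self h.cx]
      simp
    · intro d hd hne
      rw [if_neg]
      intro h'
      have h1 := deg_le h.deg hd
      exact hne (eq_single_zero h'.symm (by omega))
    · intro h'
      exact absurd (MvPolynomial.mem_support_iff.2 h.cx) h'
  have hmonic : (realPoly p n).Monic := monic_of_natDegree_le_of_coeff_eq_one n hdeg hcoef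
  have hnat : (realPoly p n).natDegree = n := by
    apply le_antisymm hdeg
    apply le_natDegree_of_ne_zero
    rw [hcoef]; exact one_ne_zero
  refine ⟨K, hK, ⟨hmonic, ?_, ?_⟩, hnat⟩
  · unfold tau'
    rw [hnat]
    conv_lhs => rw [realPoly]
    conv_rhs => rw [realPoly]
    rw [map_sum, Finset.mul_sum]
    apply Finset.sum_congr rfl
    intro d hd
    have h1 := deg_le h.deg hd
    have h2 := h.par d hd
    obtain ⟨k, hk⟩ : ∃ k, n = (d 0 + d 1) + 2 * k := ⟨(n - (d 0 + d 1)) / 2, by omega⟩
    generalize (-1 : ℝ) ^ ((n - (d 0 + d 1)) / 2) *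
      (p.coeff d / p.coeff (Finsupp.single 0 n)).re = r
    rw [map_mul, map_pow, tau_X, tau_C, map_mul, map_pow, sig_C, sig_X]
    rw [neg_pow (X : ℝ[X][X]), neg_pow (X : ℝ[X])]
    have e1 : (C (C r * ((-1) ^ d 1 * X ^ d 1)) : ℝ[X][X]) = (-1) ^ d 1 * C (C r * X ^ d 1) := by
      have : (C r * ((-1) ^ d 1 * X ^ d 1) : ℝ[X]) = (-1) ^ d 1 * (C r * X ^ d 1) := by ring
      rw [this, C_mul, C_pow, C_neg, C_1]
    rw [e1]
    have e2 : ((-1 : ℝ[X][X]) ^ n) * ((-1) ^ d 1 * (-1) ^ d 0) = 1 := by
      have e3 : ((-1 : ℝ[X][X]) ^ n) * ((-1) ^ d 1 * (-1) ^ d 0)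
          = ((-1 : ℝ[X][X]) ^ 2) ^ (d 0 + d 1 + k) := by
        rw [← pow_add, ← pow_add, ← pow_mul]
        congr 1
        omega
      have e4 : ((-1 : ℝ[X][X]) ^ 2) = 1 := by simp
      rw [e3, e4, one_pow]
    calc (-1 : ℝ[X][X]) ^ n * ((-1) ^ d 1 * C (C r * X ^ d 1) * ((-1) ^ d 0 * X ^ d 0))
        = ((-1 : ℝ[X][X]) ^ n * ((-1) ^ d 1 * (-1) ^ d 0)) * (C (C r * X ^ d 1) * X ^ d 0) := by
          ring
      _ = _ := by rw [e2, one_mul]
  · intro w z hz
    have h1 : MvPolynomial.eval ![Complex.I * z, ((-w : ℝ) : ℂ)] p = 0 := by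
      have h2 := eval_realPoly h z ((w : ℂ) * Complex.I)
      have h3 : Complex.I * ((w : ℂ) * Complex.I) = ((-w : ℝ) : ℂ) := by
        push_cast
        have := Complex.I_mul_I
        linear_combination (w : ℂ) * this
      rw [h3] at h2
      rw [h2]
      have h4 : ((realPoly p n).map (evz ((w : ℂ) * Complex.I))).eval z = 0 := hz
      rw [h4, mul_zero]
    constructor
    · have h5 := h.real_roots _ _ h1
      simpa using h5
    · have h5 := hgrow _ _ h1
      rw [norm_mul, Complex.norm_I, one_mul, Complex.norm_real, Real.norm_eq_abs, abs_neg] at h5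
      exact h5

lemma eval_detPoly {n : ℕ} (A B₁ B₂ : Matrix (Fin n) (Fin n) ℝ) (v : Fin 2 → ℂ) :
    MvPolynomial.eval v (detPoly A B₁ B₂) = (Matrix.of fun i j : Fin n =>
      (A i j : ℂ) + Complex.I * (v 0 * (B₁ i j : ℂ) + v 1 * (B₂ i j : ℂ))).det := by
  rw [detPoly, RingHom.map_det]
  congr 1
  ext i j
  simp

/-- **Main theorem.** Every admissible polynomial of total degree `n` equals
`c det (A + i (x B₁ + y B₂))` with `c ≠ 0`, `A` real skew-symmetric and `B₁`, `B₂` real positive
definite `n × n` matrices. -/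
theorem result (n : ℕ) (p : MvPolynomial (Fin 2) ℂ) (hp : Admissible p n) :
    ∃ (A B₁ B₂ : Matrix (Fin n) (Fin n) ℝ) (c : ℂ), Aᵀ = -A ∧ B₁.PosDef ∧ B₂.PosDef ∧ c ≠ 0 ∧
      p = MvPolynomial.C c * detPoly A B₁ B₂ := by
  have h := hp.adm'
  obtain ⟨K, hK, hadm, hnat⟩ := adm_realPoly h
  obtain ⟨m, B, A, hB, hA, hchar⟩ := hadm.rep hK
  have hmn : m = n := by
    rw [← hnat, ← hchar, Matrix.charpoly_natDegree_eq_dim]; simp
  subst hmn
  set a := p.coeff (Finsupp.single 0 m) with ha
  have ha0 : a ≠ 0 := h.cx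
  have hc0 : a * Complex.I ^ m * (-1) ^ m ≠ 0 :=
    mul_ne_zero (mul_ne_zero ha0 (pow_ne_zero _ Complex.I_ne_zero))
      (pow_ne_zero _ (by norm_num))
  -- the identity of polynomials
  have hid : p = MvPolynomial.C (a * Complex.I ^ m * (-1) ^ m) * detPoly (-A) 1 B := by
    apply MvPolynomial.funext
    intro v
    have hv : v = ![Complex.I * (-Complex.I * v 0), Complex.I * (-Complex.I * v 1)] := by
      have hII := Complex.I_mul_I
      funext i
      fin_cases i
      · simp only [Fin.zero_eta, Matrix.cons_val_zero]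
        linear_combination (v 0) * hII
      · simp only [Fin.mk_one, Matrix.cons_val_one, Matrix.cons_val_zero]
        linear_combination (v 1) * hII
    have h1 := eval_realPoly h (-Complex.I * v 0) (-Complex.I * v 1)
    rw [← hv, ← hchar, ← Matrix.charpoly_map, Matrix.eval_charpoly] at h1
    rw [h1, (MvPolynomial.eval v).map_mul, MvPolynomial.eval_C, eval_detPoly]
    have h2 : (Matrix.scalar (Fin m) (-Complex.I * v 0)
        - (pencil B A).map (evz (-Complex.I * v 1)))
        = (-1 : ℂ) • (Matrix.of fun i j : Fin m => ((-A) i j : ℂ) + Complex.I *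
          (v 0 * ((1 : Matrix (Fin m) (Fin m) ℝ) i j : ℂ) + v 1 * (B i j : ℂ))) := by
      ext i j
      have h5 : evz (-Complex.I * v 1) (pencil B A i j)
          = -((-Complex.I * v 1) * (B i j : ℂ) + (A i j : ℂ)) := by
        simp only [pencil, Matrix.neg_apply, Matrix.add_apply, Matrix.smul_apply, Matrix.map_apply,
          smul_eq_mul]
        rw [map_neg, map_add, map_mul, evz_X, evz_C, evz_C]
      rw [Matrix.sub_apply, Matrix.map_apply, h5]
      simp only [Matrix.scalar_apply, Matrix.smul_apply,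
        Matrix.of_apply, Matrix.neg_apply, smul_eq_mul, Matrix.diagonal_apply,
        Matrix.one_apply]
      split_ifs
      · push_cast; ring
      · push_cast; ring
    rw [h2, Matrix.det_smul, Fintype.card_fin]
    ring
  refine ⟨-A, 1, B, a * Complex.I ^ m * (-1) ^ m, ?_, Matrix.PosDef.one, ?_, hc0, hid⟩
  · rw [Matrix.transpose_neg, hA]
  · -- positive definiteness
    have hBH : B.IsHermitian := by
      ext i j
      have := congrFun (congrFun hB i) j
      simpa using this
    rw [hBH.posDef_iff_eigenvalues_pos]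
    intro i
    by_contra hcon
    push Not at hcon
    set l := hBH.eigenvalues i with hl
    have hdet : (Matrix.of fun k j : Fin m =>
        ((-l * (1 : Matrix (Fin m) (Fin m) ℝ) k j + B k j : ℝ) : ℂ)).det = 0 := by
      have h1 : (Matrix.scalar (Fin m) l - B).det = 0 := by
        rw [← Matrix.eval_charpoly, hBH.charpoly_eq, Polynomial.eval_prod]
        apply Finset.prod_eq_zero (Finset.mem_univ i)
        simp [hl]
      have h2 : (Matrix.of fun k j : Fin m =>
          ((-l * (1 : Matrix (Fin m) (Fin m) ℝ) k j + B k j : ℝ) : ℂ))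
          = (((-1 : ℝ) • (Matrix.scalar (Fin m) l - B)).map Complex.ofRealHom) := by
        ext k j
        simp only [Matrix.of_apply, Matrix.map_apply, Matrix.smul_apply, Matrix.sub_apply,
          Matrix.scalar_apply, Matrix.diagonal_apply, Matrix.one_apply, smul_eq_mul]
        split_ifs
        · simp only [mul_one, Complex.ofRealHom_eq_coe]
          push_cast; ring
        · simp
      rw [h2]
      have h3 := RingHom.map_det Complex.ofRealHom ((-1 : ℝ) • (Matrix.scalar (Fin m) l - B))
      have h4 : (((-1 : ℝ) • (Matrix.scalar (Fin m) l - B)).map Complex.ofRealHom).det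
          = Complex.ofRealHom ((-1 : ℝ) • (Matrix.scalar (Fin m) l - B)).det := h3.symm
      rw [h4, Matrix.det_smul, h1, mul_zero, map_zero]
    -- lower bound along a path
    set b := p.coeff (Finsupp.single 1 m) with hb
    have hb0 : 0 < ‖b‖ := norm_pos_iff.2 h.cy
    have hbound : ∀ e : ℝ, 0 < e → ‖b‖ ≤ ‖a‖ * ‖(Matrix.of fun k j : Fin m =>
        (((-l + e) * (1 : Matrix (Fin m) (Fin m) ℝ) k j + B k j + e * A k j : ℝ) : ℂ)).det‖ := by
      intro e he
      have he0 : (e : ℂ) ≠ 0 := by exact_mod_cast he.ne'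
      have h1 := h.boundY (Complex.I * (((-l + e) / e : ℝ) : ℂ)) (Complex.I * ((1 / e : ℝ) : ℂ))
        (by
          simp only [Complex.mul_im, Complex.I_re, Complex.ofReal_im, mul_zero, Complex.I_im,
            Complex.ofReal_re, one_mul, zero_add]
          apply div_pos _ he
          linarith)
        (by
          simp only [Complex.mul_im, Complex.I_re, Complex.ofReal_im, mul_zero, Complex.I_im,
            Complex.ofReal_re, one_mul, zero_add]
          positivity)
      have him : (Complex.I * ((1 / e : ℝ) : ℂ)).im = 1 / e := by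
        simp only [Complex.mul_im, Complex.I_re, Complex.ofReal_im, mul_zero, Complex.I_im,
          Complex.ofReal_re, one_mul, zero_add]
      rw [him, ← hb] at h1
      have h2 : MvPolynomial.eval ![Complex.I * (((-l + e) / e : ℝ) : ℂ),
          Complex.I * ((1 / e : ℝ) : ℂ)] p
          = a * Complex.I ^ m * (-1) ^ m * ((-(1 / e : ℂ)) ^ m * (Matrix.of fun k j : Fin m =>
        (((-l + e) * (1 : Matrix (Fin m) (Fin m) ℝ) k j + B k j + e * A k j : ℝ) : ℂ)).det) := by
        conv_lhs => rw [hid]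
        rw [map_mul, MvPolynomial.eval_C, eval_detPoly]
        congr 1
        have h3 : (Matrix.of fun k j : Fin m => ((-A) k j : ℂ) + Complex.I *
            ((![Complex.I * (((-l + e) / e : ℝ) : ℂ), Complex.I * ((1 / e : ℝ) : ℂ)] : Fin 2 → ℂ) 0
              * ((1 : Matrix (Fin m) (Fin m) ℝ) k j : ℂ)
            + (![Complex.I * (((-l + e) / e : ℝ) : ℂ), Complex.I * ((1 / e : ℝ) : ℂ)] : Fin 2 → ℂ) 1
              * (B k j : ℂ)))
            = (-(1 / e : ℂ)) • (Matrix.of fun k j : Fin m =>
              (((-l + e) * (1 : Matrix (Fin m) (Fin m) ℝ) k j + B k j + e * A k j : ℝ) : ℂ)) := by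
          ext k j
          simp only [Matrix.of_apply, Matrix.smul_apply, Matrix.cons_val_zero,
            Matrix.cons_val_one, smul_eq_mul, Matrix.neg_apply]
          push_cast
          have hII := Complex.I_mul_I
          field_simp
          linear_combination ((((1 : Matrix (Fin m) (Fin m) ℝ) k j : ℝ) : ℂ) * (-l + e)
            + (B k j : ℂ)) * hII
        rw [h3, Matrix.det_smul, Fintype.card_fin]
      rw [h2] at h1
      rw [norm_mul, norm_mul, norm_mul, norm_mul, norm_pow, norm_pow, norm_pow, norm_neg, norm_neg,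
        norm_one, one_pow, Complex.norm_I, one_pow, mul_one, mul_one] at h1
      have h5 : ‖(1 / e : ℂ)‖ = 1 / e := by
        rw [norm_div, norm_one, Complex.norm_real, Real.norm_eq_abs, abs_of_pos he]
      rw [h5] at h1
      have h6 : 0 < (1 / e) ^ m := by positivity
      have h7 : ‖b‖ * (1 / e) ^ m ≤ (‖a‖ * ‖(Matrix.of fun k j : Fin m =>
        (((-l + e) * (1 : Matrix (Fin m) (Fin m) ℝ) k j + B k j + e * A k j : ℝ) : ℂ)).det‖)
          * (1 / e) ^ m := by
        calc ‖b‖ * (1 / e) ^ m ≤ _ := h1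
          _ = _ := by ring
      exact le_of_mul_le_mul_right h7 h6
    have hcont : Continuous (fun e : ℝ => ‖a‖ * ‖(Matrix.of fun k j : Fin m =>
        (((-l + e) * (1 : Matrix (Fin m) (Fin m) ℝ) k j + B k j + e * A k j : ℝ) : ℂ)).det‖) := by
      apply Continuous.mul continuous_const
      apply Continuous.norm
      apply Continuous.matrix_det
      apply continuous_matrix
      intro k j
      simp only [Matrix.of_apply]
      fun_prop
    have hlim := (hcont.tendsto 0).mono_left (nhdsWithin_le_nhds (s := Set.Ioi 0))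
    have hle := ge_of_tendsto hlim (by
      filter_upwards [self_mem_nhdsWithin] with e he
      exact hbound e he)
    simp only [add_zero, zero_mul] at hle
    rw [hdet, norm_zero, mul_zero] at hle
    linarith

end

end Pool.Agent.Results.MP_ca7272_al.SkewDetRep
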